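import Pool.Agent.V7H75.TQ.Sys

set_option autoImplicit false

/-!
Letterwise functionals, and the two halves of a string.
-/

namespace Pool.Agent.V7H75.TQ

open Encodable Pool.Agent.Helper227 Pool.Agent.V7H75.HF Pool.Agent.V7H75.TG
open Pool.Agent.H548R2.Post (ext)
open Pool.Agent.V7H75.TP (Str SF Ap)

theorem pre_ext (σ : Str) : pre (ext σ) σ.length = σ := by
  refine List.ext_getElem (by simp) fun i h1 h2 => ?_
  rw [getElem_pre]
  simp [ext, List.getD, h2]

theorem prefix_pre {σ τ : Str} (h : σ <+: τ) : σ = pre (ext τ) σ.length := by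
  have h1 := pre_ext τ
  rw [← h1] at h
  exact pre_eq_of_prefix h

/-- monotone functions of strings which are compatible with initial segments -/
theorem mono_of {f : Str → Str} {F : (ℕ → Bool) → ℕ → Bool} {l : ℕ → ℕ}
    (hf : ∀ X n, f (pre X n) = pre (F X) (l n)) (hl : Monotone l) {σ τ : Str} (h : σ <+: τ) :
    f σ <+: f τ := by
  have h1 := prefix_pre h
  have h2 := pre_ext τ
  have h3 : f σ = pre (F (ext τ)) (l σ.length) := by
    conv_lhs => rw [h1]
    exact hf _ _
  have h4 : f τ = pre (F (ext τ)) (l τ.length) := by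
    conv_lhs => rw [← h2]
    exact hf _ _
  rw [h3, h4]
  exact pre_prefix _ (hl h.length_le)

/-- letterwise change of a string -/
def lw (f : ℕ → Bool → Bool) (σ : Str) : Str :=
  (List.range σ.length).map fun i => f i (σ.getD i false)

theorem lw_pre (f : ℕ → Bool → Bool) (X : ℕ → Bool) (n : ℕ) :
    lw f (pre X n) = pre (fun i => f i (X i)) n := by
  unfold lw
  rw [length_pre]
  unfold pre
  refine List.map_congr_left fun i hi => ?_
  have h1 := pre_getD X n i false (List.mem_range.1 hi)
  unfold pre at h1
  rw [h1]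

theorem lw_SF (f : ℕ → Bool → Bool) : SF (lw f) where
  mono _ _ h := mono_of (lw_pre f) monotone_id h
  len σ := by simp [lw]

theorem lw_Ap (f : ℕ → Bool → Bool) (X : ℕ → Bool) : Ap (lw f) X fun i => f i (X i) := by
  intro k
  exact ⟨k, by rw [lw_pre]⟩

/-- the even half -/
def se (σ : Str) : Str := (List.range ((σ.length + 1) / 2)).map fun i => σ.getD (2 * i) false

/-- the odd half -/
def so (σ : Str) : Str := (List.range (σ.length / 2)).map fun i => σ.getD (2 * i + 1) false

theorem se_pre (X : ℕ → Bool) (n : ℕ) : se (pre X n) = pre (evn X) ((n + 1) / 2) := by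
  unfold se
  rw [length_pre]
  conv_rhs => unfold pre
  refine List.map_congr_left fun i hi => ?_
  have h0 := List.mem_range.1 hi
  rw [pre_getD X n (2 * i) false (by omega)]
  rfl

theorem so_pre (X : ℕ → Bool) (n : ℕ) : so (pre X n) = pre (odd X) (n / 2) := by
  unfold so
  rw [length_pre]
  conv_rhs => unfold pre
  refine List.map_congr_left fun i hi => ?_
  have h0 := List.mem_range.1 hi
  rw [pre_getD X n (2 * i + 1) false (by omega)]
  rfl

theorem se_mono {σ τ : Str} (h : σ <+: τ) : se σ <+: se τ :=
  mono_of se_pre (fun a b hab => by simp only; omega) h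

theorem so_mono {σ τ : Str} (h : σ <+: τ) : so σ <+: so τ :=
  mono_of so_pre (fun a b hab => by simp only; omega) h

theorem se_len (σ : Str) : (se σ).length = (σ.length + 1) / 2 := by simp [se]

theorem so_len (σ : Str) : (so σ).length = σ.length / 2 := by simp [so]

/-- the join of two strings -/
def sj (α β : Str) : Str := (List.range (min (2 * α.length) (2 * β.length + 1))).map fun i =>
  if i % 2 = 0 then α.getD (i / 2) false else β.getD (i / 2) false

theorem sj_pre (A B : ℕ → Bool) (a c : ℕ) :
    sj (pre A a) (pre B c) = pre (join A B) (min (2 * a) (2 * c + 1)) := by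
  unfold sj
  rw [length_pre, length_pre]
  conv_rhs => unfold pre
  refine List.map_congr_left fun i hi => ?_
  have h0 := List.mem_range.1 hi
  unfold join
  by_cases h : i % 2 = 0
  · rw [if_pos h, if_pos h, pre_getD A a (i / 2) false (by omega)]
  · rw [if_neg h, if_neg h, pre_getD B c (i / 2) false (by omega)]

theorem sj_mono {α α' β β' : Str} (h : α <+: α') (h' : β <+: β') : sj α β <+: sj α' β' := by
  rw [prefix_pre h, prefix_pre h', ← pre_ext α', ← pre_ext β']
  simp only [length_pre, pre_ext]
  rw [sj_pre]
  conv_rhs => rw [← pre_ext α', ← pre_ext β']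
  rw [sj_pre]
  have h1 := h.length_le
  have h2 := h'.length_le
  exact pre_prefix _ (by omega)

theorem sj_len (α β : Str) : (sj α β).length = min (2 * α.length) (2 * β.length + 1) := by
  simp [sj]

/-- two functionals on the two halves -/
def fj (f g : Str → Str) (σ : Str) : Str := sj (f (se σ)) (g (so σ))

theorem fj_SF {f g : Str → Str} (hf : SF f) (hg : SF g) : SF (fj f g) where
  mono _ _ h := sj_mono (hf.mono _ _ (se_mono h)) (hg.mono _ _ (so_mono h))
  len σ := by
    unfold fj
    rw [sj_len]
    have h1 := hf.len (se σ)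
    have h2 := hg.len (so σ)
    rw [se_len] at h1
    rw [so_len] at h2
    omega

theorem fj_Ap {f g : Str → Str} (hf : SF f) (hg : SF g) {X A B : ℕ → Bool}
    (h1 : Ap f (evn X) A) (h2 : Ap g (odd X) B) : Ap (fj f g) X (join A B) := by
  intro k
  obtain ⟨s1, hs1⟩ := h1.len hf k
  obtain ⟨s2, hs2⟩ := h2.len hg k
  refine ⟨2 * s1 + 2 * s2, ?_⟩
  unfold fj
  rw [se_pre, so_pre, h1.eq_pre hf, h2.eq_pre hg, sj_pre]
  have h3 := hs1 ((2 * s1 + 2 * s2 + 1) / 2) (by omega)
  have h4 := hs2 ((2 * s1 + 2 * s2) / 2) (by omega)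
  exact pre_prefix _ (by omega)

theorem join_evn_odd (X : ℕ → Bool) : join (evn X) (odd X) = X := by
  funext n
  unfold join evn odd
  by_cases h : n % 2 = 0
  · rw [if_pos h]
    congr 1
    omega
  · rw [if_neg h]
    congr 1
    omega

theorem evn_le (X : ℕ → Bool) : TLe (evn X) X :=
  tLe_of_computable (f := fun n : ℕ => 2 * n) (TP.c_mul (Computable.const 2) Computable.id)
    fun _ => rfl

theorem odd_le (X : ℕ → Bool) : TLe (odd X) X :=
  tLe_of_computable (f := fun n : ℕ => 2 * n + 1)
    (Computable.succ.comp (TP.c_mul (Computable.const 2) Computable.id)) fun _ => rfl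

/-! ### computability -/

theorem se_prim : Primrec se := by
  refine Primrec.list_map (Primrec.list_range.comp (Primrec.nat_div.comp
    (Primrec.succ.comp Primrec.list_length) (Primrec.const 2))) ?_
  exact (Primrec.list_getD false).comp Primrec.fst (Primrec.nat_mul.comp (Primrec.const 2)
    Primrec.snd)

theorem so_prim : Primrec so := by
  refine Primrec.list_map (Primrec.list_range.comp (Primrec.nat_div.comp
    Primrec.list_length (Primrec.const 2))) ?_
  exact (Primrec.list_getD false).comp Primrec.fst (Primrec.succ.comp (Primrec.nat_mul.comp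
    (Primrec.const 2) Primrec.snd))

theorem sj_prim : Primrec fun x : Str × Str => sj x.1 x.2 := by
  refine Primrec.list_map (Primrec.list_range.comp (Primrec.nat_min.comp
    (Primrec.nat_mul.comp (Primrec.const 2) (Primrec.list_length.comp Primrec.fst))
    (Primrec.succ.comp (Primrec.nat_mul.comp (Primrec.const 2)
      (Primrec.list_length.comp Primrec.snd))))) ?_
  have h2 : Primrec fun y : (Str × Str) × ℕ => y.2 / 2 :=
    Primrec.nat_div.comp Primrec.snd (Primrec.const 2)
  exact Primrec.ite (Primrec.eq.comp (Primrec.nat_mod.comp Primrec.snd (Primrec.const 2))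
    (Primrec.const 0))
    ((Primrec.list_getD false).comp (Primrec.fst.comp Primrec.fst) h2)
    ((Primrec.list_getD false).comp (Primrec.snd.comp Primrec.fst) h2)

theorem fj_comp {f g : ℕ → Str → Str} (hf : Computable fun y : ℕ × Str => f y.1 y.2)
    (hg : Computable fun y : ℕ × Str => g y.1 y.2) :
    Computable fun y : ℕ × Str => fj (f y.1.unpair.1) (g y.1.unpair.2) y.2 := by
  have h1 : Computable fun y : ℕ × Str => f y.1.unpair.1 (se y.2) :=
    hf.comp (g := fun y : ℕ × Str => ((y.1.unpair.1, se y.2) : ℕ × Str))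
      ((TP.fst_prim.to_comp.comp Computable.fst).pair (se_prim.to_comp.comp Computable.snd))
  have h2 : Computable fun y : ℕ × Str => g y.1.unpair.2 (so y.2) :=
    hg.comp (g := fun y : ℕ × Str => ((y.1.unpair.2, so y.2) : ℕ × Str))
      ((TP.sec_prim.to_comp.comp Computable.fst).pair (so_prim.to_comp.comp Computable.snd))
  exact sj_prim.to_comp.comp (g := fun y : ℕ × Str =>
    ((f y.1.unpair.1 (se y.2), g y.1.unpair.2 (so y.2)) : Str × Str)) (h1.pair h2)

end Pool.Agent.V7H75.TQ
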