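import Pool.Agent.V7H75.TQ.Prod

set_option autoImplicit false

/-!
Several programs which act on different parts of the oracle.
-/

namespace Pool.Agent.V7H75.TQ

open Pool.Agent.V7H75.HF
open Nat.Partrec (Code)

/-- `X` is read as `X₀ ⊕ (X₁ ⊕ (... ⊕ (X_{k-1} ⊕ Z)))`, where `k` is the length of the list. One of
the parts `X_c` is changed by the program `i`, with a way back given by a program in `M`, where
`(i, M)` is the member of the list with the number `c`, or one digit of `Z` is changed. -/
def Stp : List (Code × List Code) → (ℕ → Bool) → (ℕ → Bool) → Prop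
  | [] => Dig
  | a :: L => Two (One a.1 a.2) (Stp L)

noncomputable def rtsL : ∀ L : List (Code × List Code), Rts (Stp L)
  | [] => rtsDig
  | a :: L => rtsTwo (rtsCode a.1 a.2) (rtsL L)

end Pool.Agent.V7H75.TQ
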