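import Pool.Agent.V7H75.TQ.Join

set_option autoImplicit false

/-!
Systems of roots for the product of two relations, and for the changes of single digits.
-/

namespace Pool.Agent.V7H75.TQ

open Encodable Pool.Agent.Helper227 Pool.Agent.V7H75.HF Pool.Agent.V7H75.TG
open Pool.Agent.V7H75.TP (Str SF Ap)

/-- a change in one of the two halves -/
def Two (E E' : (ℕ → Bool) → (ℕ → Bool) → Prop) (X Y : ℕ → Bool) : Prop :=
  (E (evn X) (evn Y) ∧ odd X = odd Y) ∨ (evn X = evn Y ∧ E' (odd X) (odd Y))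

theorem pair_le {a b c d : ℕ} (h1 : a ≤ c) (h2 : b ≤ d) : Nat.pair a b ≤ (max c d + 1) ^ 2 := by
  have h3 := Nat.pair_lt_max_add_one_sq a b
  have h4 : (max a b + 1) ^ 2 ≤ (max c d + 1) ^ 2 := Nat.pow_le_pow_left (by omega) 2
  omega

theorem comp_bd {f g : ℕ → ℕ} (hf : Computable f) (hg : Computable g) :
    Computable fun n => (max (f n) (g n) + 1) ^ 2 := by
  have h1 : Primrec fun m : ℕ × ℕ => (max m.1 m.2 + 1) ^ 2 := by
    have h2 : Primrec fun m : ℕ × ℕ => max m.1 m.2 + 1 :=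
      Primrec.succ.comp (Primrec.nat_max.comp Primrec.fst Primrec.snd)
    exact (Primrec.nat_mul.comp h2 h2).of_eq fun m => (sq _).symm
  exact h1.to_comp.comp (hf.pair hg)

theorem join_ext {X Y Z : ℕ → Bool} (h1 : TLe (evn X) Z) (h2 : TLe (odd X) Z) : TLe X Z := by
  rw [← join_evn_odd X]
  exact join_le h1 h2

section prod

variable {E E' : (ℕ → Bool) → (ℕ → Bool) → Prop} (A : Rts E) (A' : Rts E')

/-- the stages at which both parts are settled -/
def QQ (Q Q' : ℕ × ℕ × ℕ → Prop) (a : ℕ × ℕ × ℕ) : Prop :=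
  ∃ T T', Q (a.1, T, a.2.2.unpair.1) ∧ Q' (a.1, T', a.2.2.unpair.2) ∧ 2 * T + 2 * T' ≤ a.2.1

theorem QQ_si {Q Q' : ℕ × ℕ × ℕ → Prop} {X : ℕ → Bool} (h : SI X Q) (h' : SI X Q') :
    SI X (QQ Q Q') := by
  refine SI.ex (p := fun (a : ℕ × ℕ × ℕ) T => ∃ T', Q (a.1, T, a.2.2.unpair.1) ∧
    Q' (a.1, T', a.2.2.unpair.2) ∧ 2 * T + 2 * T' ≤ a.2.1) ?_
  refine SI.ex (p := fun (a : (ℕ × ℕ × ℕ) × ℕ) T' => Q (a.1.1, a.2, a.1.2.2.unpair.1) ∧
    Q' (a.1.1, T', a.1.2.2.unpair.2) ∧ 2 * a.2 + 2 * T' ≤ a.1.2.1) ?_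
  have p0 : Primrec fun a : ((ℕ × ℕ × ℕ) × ℕ) × ℕ => a.1.1 := Primrec.fst.comp Primrec.fst
  have p1 : Primrec fun a : ((ℕ × ℕ × ℕ) × ℕ) × ℕ => a.1.1.1 := Primrec.fst.comp p0
  have p2 : Primrec fun a : ((ℕ × ℕ × ℕ) × ℕ) × ℕ => a.1.1.2.2 :=
    Primrec.snd.comp (Primrec.snd.comp p0)
  have p3 : Primrec fun a : ((ℕ × ℕ × ℕ) × ℕ) × ℕ => a.1.1.2.1 :=
    Primrec.fst.comp (Primrec.snd.comp p0)
  have p4 : Primrec fun a : ((ℕ × ℕ × ℕ) × ℕ) × ℕ => a.1.2 := Primrec.snd.comp Primrec.fst
  refine SI.and ?_ (SI.and ?_ ?_)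
  · exact h.comp (f := fun a : ((ℕ × ℕ × ℕ) × ℕ) × ℕ => (a.1.1.1, a.1.2, a.1.1.2.2.unpair.1))
      (p1.pair (p4.pair (TP.fst_prim.comp p2)))
  · exact h'.comp (f := fun a : ((ℕ × ℕ × ℕ) × ℕ) × ℕ => (a.1.1.1, a.2, a.1.1.2.2.unpair.2))
      (p1.pair (Primrec.snd.pair (TP.sec_prim.comp p2)))
  · exact SI.of_prim (Primrec.nat_le.comp (Primrec.nat_add.comp
      (Primrec.nat_mul.comp (Primrec.const 2) p4)
      (Primrec.nat_mul.comp (Primrec.const 2) Primrec.snd)) p3)

/-- roots for the product -/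
noncomputable def rtsTwo : Rts (Two E E') where
  G d := fj (A.G d.unpair.1) (A'.G d.unpair.2)
  P f := fj (A.P f.unpair.1) (A'.P f.unpair.2)
  S n σ d := A.S n (se σ) d.unpair.1 ∧ A'.S n (so σ) d.unpair.2
  b n := (max (A.b n) (A'.b n) + 1) ^ 2
  pb n := (max (A.pb n) (A'.pb n) + 1) ^ 2 + 1
  rt X n := join (A.rt (evn X) n) (A'.rt (odd X) n)
  hG d := fj_SF (A.hG _) (A'.hG _)
  hP d := fj_SF (A.hP _) (A'.hP _)
  hSb n σ d h := by
    rw [← Nat.pair_unpair d]
    exact pair_le (A.hSb _ _ _ h.1) (A'.hSb _ _ _ h.2)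
  cP := fj_comp A.cP A'.cP
  cb := comp_bd A.cb A'.cb
  cpb := Computable.succ.comp (comp_bd A.cpb A'.cpb)
  cG := fj_comp A.cG A'.cG
  cS := by
    refine UD.and ?_ ?_
    · exact A.cS.comp (f := fun y : (ℕ × Str) × ℕ => ((y.1.1, se y.1.2), y.2.unpair.1))
        (((Computable.fst.comp Computable.fst).pair (se_prim.to_comp.comp
          (Computable.snd.comp Computable.fst))).pair (TP.fst_prim.to_comp.comp Computable.snd))
    · exact A'.cS.comp (f := fun y : (ℕ × Str) × ℕ => ((y.1.1, so y.1.2), y.2.unpair.2))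
        (((Computable.fst.comp Computable.fst).pair (so_prim.to_comp.comp
          (Computable.snd.comp Computable.fst))).pair (TP.sec_prim.to_comp.comp Computable.snd))
  fine X := by
    obtain ⟨n0, ρ, Q, hF⟩ := A.fine (evn X)
    obtain ⟨n1, ρ', Q', hF'⟩ := A'.fine (odd X)
    have h1 := hF.up (N := max n0 n1) (by omega)
    have h2 := hF'.up (N := max n0 n1) (by omega)
    clear hF hF'
    refine ⟨max n0 n1, fun n => Nat.pair (ρ n) (ρ' n), QQ (fun a => Q a ∧ max n0 n1 ≤ a.1)
      (fun a => Q' a ∧ max n0 n1 ≤ a.1), ?_, ?_, ?_, ?_, ?_, ?_⟩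
    · intro n hn
      simp only [Nat.unpair_pair]
      exact fj_Ap (A.hG _) (A'.hG _) (h1.ap n hn) (h2.ap n hn)
    · intro n hn
      obtain ⟨f, hf, h3⟩ := h1.back n hn
      obtain ⟨f', hf', h3'⟩ := h2.back n hn
      refine ⟨Nat.pair f f', Nat.lt_succ_of_le (pair_le hf.le hf'.le), ?_⟩
      simp only [Nat.unpair_pair]
      have h4 := fj_Ap (X := join (A.rt (evn X) n) (A'.rt (odd X) n)) (A := evn X) (B := odd X)
        (A.hP f) (A'.hP f') (by rw [evn_join]; exact h3) (by rw [odd_join]; exact h3')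
      rwa [join_evn_odd] at h4
    · intro n hn
      exact pair_le (h1.le n hn) (h2.le n hn)
    · exact QQ_si (h1.si.trans (evn_le X)) (h2.si.trans (odd_le X))
    · intro n hn
      obtain ⟨T, hT⟩ := h1.ex n hn
      obtain ⟨T', hT'⟩ := h2.ex n hn
      refine ⟨2 * T + 2 * T', T, T', ?_, ?_, le_rfl⟩
      · simp only [Nat.unpair_pair]
        exact hT
      · simp only [Nat.unpair_pair]
        exact hT'
    · rintro n T d ⟨T1, T2, hQ, hQ', hT⟩
      obtain ⟨h3, h4, h5⟩ := h1.ok _ _ _ hQ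
      obtain ⟨-, h4', h5'⟩ := h2.ok _ _ _ hQ'
      simp only at hT
      refine ⟨h3, ?_, fun t ht d' => ?_⟩
      · rw [← Nat.pair_unpair d, h4, h4']
      · rw [se_pre, so_pre, h5 _ (by omega), h5' _ (by omega)]
        constructor
        · rintro ⟨h6, h7⟩
          rw [← Nat.pair_unpair d', h6, h7, Nat.pair_unpair]
        · rintro rfl
          exact ⟨rfl, rfl⟩
  link X Y h := by
    rcases h with ⟨h1, h2⟩ | ⟨h1, h2⟩
    · obtain ⟨N, hN⟩ := A.link _ _ h1
      exact ⟨N, fun n hn => by rw [hN n hn, h2]⟩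
    · obtain ⟨N, hN⟩ := A'.link _ _ h2
      exact ⟨N, fun n hn => by rw [hN n hn, h1]⟩
  tle X Y h := by
    rcases h with ⟨h1, h2⟩ | ⟨h1, h2⟩
    · have h3 := A.tle _ _ h1
      refine ⟨join_ext (Y := Y) (TuringReducible.trans h3.1 (evn_le Y)) ?_,
        join_ext (Y := X) (TuringReducible.trans h3.2 (evn_le X)) ?_⟩
      · rw [h2]
        exact odd_le Y
      · rw [← h2]
        exact odd_le X
    · have h3 := A'.tle _ _ h2
      refine ⟨join_ext (Y := Y) ?_ (TuringReducible.trans h3.1 (odd_le Y)),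
        join_ext (Y := X) ?_ (TuringReducible.trans h3.2 (odd_le X))⟩
      · rw [h1]
        exact evn_le Y
      · rw [← h1]
        exact evn_le X

end prod

/-! ### changes of single digits -/

/-- a change of at most one digit -/
def Dig (X Y : ℕ → Bool) : Prop := ∃ k, ∀ n, n ≠ k → X n = Y n

theorem le_Dig {X Y : ℕ → Bool} (h : Dig X Y) : TLe X Y := by
  obtain ⟨k, hk⟩ := h
  rw [tLe_iff_SI]
  have hq : SI Y fun y : ℕ × Bool => Y y.1 = y.2 := SI.query
  refine (SI.or (SI.and (SI.of_prim (p := fun y : ℕ × Bool => y.1 = k)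
      (Primrec.eq.comp Primrec.fst (Primrec.const k)))
    (SI.of_prim (p := fun y : ℕ × Bool => X k = y.2)
      (Primrec.eq.comp (Primrec.const (X k)) Primrec.snd)))
    (SI.and (SI.of_prim (p := fun y : ℕ × Bool => ¬ y.1 = k)
      (Primrec.eq.comp Primrec.fst (Primrec.const k)).not) hq)).of_eq fun y => ?_
  by_cases hy : y.1 = k
  · simp [hy]
  · simp [hy, hk y.1 hy]

theorem Dig.symm {X Y : ℕ → Bool} (h : Dig X Y) : Dig Y X := by
  obtain ⟨k, hk⟩ := h
  exact ⟨k, fun n hn => (hk n hn).symm⟩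

/-- the first digits are replaced by zeros -/
def zd (d i : ℕ) (a : Bool) : Bool := decide (d ≤ i) && a

/-- the first digits are replaced by a list -/
def rd' (f i : ℕ) (a : Bool) : Bool :=
  bif decide (i < (dl f).length) then decide ((dl f).getD i 0 = 1) else a

theorem zd_comp : Computable fun y : ℕ × Str => lw (zd y.1) y.2 := by
  have h : Primrec fun y : ℕ × Str => lw (zd y.1) y.2 := by
    refine Primrec.list_map (Primrec.list_range.comp (Primrec.list_length.comp Primrec.snd)) ?_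
    exact Primrec.and.comp (Primrec.nat_le.comp (Primrec.fst.comp Primrec.fst)
      Primrec.snd).decide ((Primrec.list_getD false).comp (Primrec.snd.comp Primrec.fst)
        Primrec.snd)
  exact h.to_comp

theorem rd_comp : Computable fun y : ℕ × Str => lw (rd' y.1) y.2 := by
  have h0 : Primrec fun y : (ℕ × Str) × ℕ => dl y.1.1 :=
    (Primrec.ofNat (List ℕ)).comp (Primrec.fst.comp Primrec.fst)
  have h : Primrec fun y : ℕ × Str => lw (rd' y.1) y.2 := by
    refine Primrec.list_map (Primrec.list_range.comp (Primrec.list_length.comp Primrec.snd)) ?_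
    refine Primrec.cond (Primrec.nat_lt.comp Primrec.snd (Primrec.list_length.comp h0)).decide
      (Primrec.eq.comp ((Primrec.list_getD 0).comp h0 Primrec.snd) (Primrec.const 1)).decide
      ((Primrec.list_getD false).comp (Primrec.snd.comp Primrec.fst) Primrec.snd)
  exact h.to_comp

/-- roots for the changes of single digits -/
noncomputable def rtsDig : Rts Dig where
  G d := lw (zd d)
  P f := lw (rd' f)
  S n _ d := d = n
  b n := n
  pb n := bd 1 n + 1
  rt X n i := zd n i (X i)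
  hG d := lw_SF _
  hP f := lw_SF _
  hSb n σ d h := h.le
  cP := rd_comp
  cb := Computable.id
  cpb := (Primrec.succ.comp (bd_prim.comp (Primrec.const 1) Primrec.id)).to_comp
  cG := zd_comp
  cS := TP.UD.eqn Computable.snd (Computable.fst.comp Computable.fst)
  fine X := by
    refine ⟨0, fun n => n, fun a => a.2.2 = a.1, ?_, ?_, ?_, ?_, ?_, ?_⟩
    · intro n _
      exact lw_Ap _ X
    · intro n _
      have hl : ((List.range n).map fun i => cond (X i) 1 0).length = n := by simp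
      refine ⟨encode ((List.range n).map fun i => cond (X i) 1 0), ?_, ?_⟩
      · have h1 := encode_le_bd (c := 1) ((List.range n).map fun i => cond (X i) 1 0)
          fun a ha => by
            obtain ⟨i, -, rfl⟩ := List.mem_map.1 ha
            cases X i <;> simp
        rw [hl] at h1
        exact Nat.lt_succ_of_le h1
      · have h1 := lw_Ap (rd' (encode ((List.range n).map fun i => cond (X i) 1 0)))
          fun i => zd n i (X i)
        have h2 : (fun i => rd' (encode ((List.range n).map fun i => cond (X i) 1 0)) i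
            (zd n i (X i))) = X := by
          funext i
          unfold rd' zd dl
          rw [Denumerable.ofNat_encode, hl]
          by_cases hi : i < n
          · rw [List.getD_eq_getElem _ _ (by rw [hl]; exact hi)]
            cases hX : X i <;> simp [hi, hX]
          · simp [hi, not_lt.1 hi]
        rwa [h2] at h1
    · intro n _
      exact le_rfl
    · exact SI.of_prim (Primrec.eq.comp (Primrec.snd.comp Primrec.snd) Primrec.fst)
    · intro n _
      exact ⟨0, rfl⟩
    · intro n T d h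
      have h1 : d = n := h
      subst h1
      exact ⟨Nat.zero_le _, rfl, fun t _ d' => Iff.rfl⟩
  link X Y h := by
    obtain ⟨k, hk⟩ := h
    refine ⟨k + 1, fun n hn => ?_⟩
    funext i
    unfold zd
    by_cases hi : n ≤ i
    · rw [hk i (by omega)]
    · simp [hi]
  tle X Y h := ⟨le_Dig h, le_Dig h.symm⟩

end Pool.Agent.V7H75.TQ
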