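import Pool.Agent.V7H75.TG.Main

set_option autoImplicit false

/-!
Effective systems of roots for a relation between oracles, and the solutions to Post's problem
which they give.
-/

namespace Pool.Agent.V7H75.TQ

open Encodable Pool.Agent.Helper227 Pool.Agent.V7H75.HF Pool.Agent.V7H75.TG
open Nat.Partrec (Code)
open Pool.Agent.V7H75.TP (Str SF Ap le_iff ch_true ch_eq exists_program tLe_of_SI J_le le_J dec_SF
  dec_computable ap_of_red)

/-- effective roots for the relation `E` -/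
structure Rts (E : (ℕ → Bool) → (ℕ → Bool) → Prop) where
  G : ℕ → Str → Str
  P : ℕ → Str → Str
  S : ℕ → Str → ℕ → Prop
  b : ℕ → ℕ
  pb : ℕ → ℕ
  rt : (ℕ → Bool) → ℕ → ℕ → Bool
  hG : ∀ d, SF (G d)
  hP : ∀ f, SF (P f)
  hSb : ∀ n σ d, S n σ d → d ≤ b n
  cP : Computable fun y : ℕ × Str => P y.1 y.2
  cb : Computable b
  cpb : Computable pb
  cG : Computable fun y : ℕ × Str => G y.1 y.2
  cS : UD fun _ (y : (ℕ × Str) × ℕ) => S y.1.1 y.1.2 y.2
  fine : ∀ X, ∃ n0 ρ Q, Fine G P S b pb X n0 ρ (rt X) Q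
  link : ∀ X Y, E X Y → ∃ N, ∀ n ≥ N, rt X n = rt Y n
  tle : ∀ X Y, E X Y → TLe X Y ∧ TLe Y X

/-- the roots work for a smaller relation -/
def Rts.mono {E E' : (ℕ → Bool) → (ℕ → Bool) → Prop} (A : Rts E) (h : ∀ X Y, E' X Y → E X Y) :
    Rts E' :=
  { A with
    link := fun X Y h1 => A.link X Y (h X Y h1)
    tle := fun X Y h1 => A.tle X Y (h X Y h1) }

section solve

variable {E : (ℕ → Bool) → (ℕ → Bool) → Prop} (A : Rts E)

/-- the set for an oracle -/
noncomputable def Rts.W (X : ℕ → Bool) : ℕ → Bool := join X (V A.G A.P A.S A.b A.pb X)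

theorem Rts.not_W_le (X : ℕ → Bool) : ¬ TLe (A.W X) X := by
  obtain ⟨n0, ρ, Q, hF⟩ := A.fine X
  exact fun h => not_V_le A.hG A.hP hF (TuringReducible.trans (le_join' _ _) h)

theorem Rts.not_jump_le_W (X : ℕ → Bool) : ¬ TLe (jump X) (A.W X) := by
  obtain ⟨n0, ρ, Q, hF⟩ := A.fine X
  exact not_jump_le (enu A.hG A.hP hF) (DX_le A.hG A.hP A.cP A.cb A.cpb A.cG A.cS hF A.hSb)

theorem Rts.inv {X Y : ℕ → Bool} (h : E X Y) : TLe (A.W X) (A.W Y) ∧ TLe (A.W Y) (A.W X) := by
  obtain ⟨n0, ρ, Q, hF⟩ := A.fine X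
  obtain ⟨n1, ρ', Q', hF'⟩ := A.fine Y
  obtain ⟨N, hN⟩ := A.link X Y h
  have h1 := hF.up (N := max (max n0 n1) N) (by omega)
  have h2 := hF'.up (N := max (max n0 n1) N) (by omega)
  exact ⟨half A.hG A.cP A.cb A.cpb A.cG A.cS h1 A.hSb h2 (fun n hn => hN n (by omega)) (A.tle X Y h).1,
    half A.hG A.cP A.cb A.cpb A.cG A.cS h2 A.hSb h1 (fun n hn => (hN n (by omega)).symm)
      (A.tle X Y h).2⟩

include A in
open Pool.Agent.H639 Pool.Agent.H639.LU in
/-- a solution to Post's problem which is invariant for the relation -/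
theorem Rts.solve : ∃ r : Code, (∀ X : ℕ → Bool, le X (ch (LU.W r X)) ∧ ¬ le (ch (LU.W r X)) X ∧
      le (ch (LU.W r X)) (ch (J X)) ∧ ¬ le (ch (J X)) (ch (LU.W r X))) ∧
    ∀ X Y : ℕ → Bool, E X Y →
      le (ch (LU.W r X)) (ch (LU.W r Y)) ∧ le (ch (LU.W r Y)) (ch (LU.W r X)) := by
  have hU : U1 fun B (n : ℕ) => A.W B n = true := W_U1 A.cP A.cb A.cpb A.cG A.cS
  obtain ⟨F, hF, -, eF⟩ := id hU
  obtain ⟨r, hr⟩ := exists_program hF
  have hW : ∀ X, ch (LU.W r X) = A.W X := by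
    intro X
    funext n
    rw [Bool.eq_iff_iff, ch_true, hr X n]
    exact (eF X n).symm
  refine ⟨r, fun X => ?_, fun X Y h1 => ?_⟩
  · simp only [le_iff, hW]
    refine ⟨le_join _ _, fun h => A.not_W_le X h, ?_,
      fun h => A.not_jump_le_W X (TuringReducible.trans (le_J X) h)⟩
    have h1 := tLe_of_SI (hU.si X)
    rw [ch_eq] at h1
    exact TuringReducible.trans h1 (le_J X)
  · simp only [le_iff, hW]
    exact A.inv h1

end solve

/-! ### one functional forward and finitely many back -/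

section one

variable {g : Str → Str} {H : ℕ → Str → Str} (m : ℕ) (hg : SF g)
    (hH : ∀ l, SF (H l)) (cg : Computable g) (cH : Computable fun y : ℕ × Str => H y.1 y.2)

include hg hH cg cH in
theorem le_of_Rl {X Y : ℕ → Bool} (h : Rl g H m X Y) : TLe X Y ∧ TLe Y X := by
  obtain ⟨h1, l, -, hl⟩ := h
  exact ⟨Ap_le (hH l) (cH.comp (g := fun σ : Str => ((l, σ) : ℕ × Str))
      ((Computable.const l).pair Computable.id)) hl, Ap_le hg cg h1⟩

/-- the roots for one functional forward and finitely many back -/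
noncomputable def rtsOne : Rts (Rl g H m) where
  G := Gd g
  P := Pf H
  S := Sn g H m
  b := gK
  pb := pbb m
  rt X n := zz g H m X (exists_Dp (Rt g H m X) n).choose
  hG := Gd_SF hg
  hP := Pf_SF hH
  hSb _ _ _ h := Dp.le h
  cP := Pf_comp cH
  cb := gK_prim.to_comp
  cpb := pbb_comp m
  cG := TP.it_comp cg
  cS := Sn_UD cg cH
  fine X := by
    obtain ⟨n0, ρ, Q, hF, h1⟩ := exists_fine (m := m) hg hH cg cH X
    refine ⟨n0, ρ, Q, ?_⟩
    have h2 : (fun n => zz g H m X (exists_Dp (Rt g H m X) n).choose) =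
        fun n => zz g H m X (ρ n) := by
      funext n
      rw [(exists_Dp (Rt g H m X) n).choose_spec.1.uniq (h1 n)]
    rw [h2]
    exact hF
  link X Y h := by
    obtain ⟨N, hN⟩ := Rl_link hg h
    exact ⟨N, fun n hn => hN n hn _ _ (exists_Dp (Rt g H m X) n).choose_spec.1
      (exists_Dp (Rt g H m Y) n).choose_spec.1⟩
  tle X Y h := le_of_Rl m hg hH cg cH h

end one

open Pool.Agent.H639 Pool.Agent.H639.LU in
/-- the relation of one program and a list of programs for the way back -/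
def One (i : Code) (M : List Code) (X Y : ℕ → Bool) : Prop := Red i X Y ∧ ∃ j ∈ M, Red j Y X

open Pool.Agent.H639 Pool.Agent.H639.LU in
noncomputable def rtsCode (i : Code) (M : List Code) : Rts (One i M) :=
  (rtsOne (g := dec i) (H := HM M i) M.length (dec_SF i) (fun l => dec_SF _) (dec_computable i)
    (HM_comp M i)).mono fun X Y h => by
      obtain ⟨h3, j, hj, h4⟩ := h
      refine ⟨ap_of_red h3, ?_⟩
      obtain ⟨l, hl, rfl⟩ := List.getElem_of_mem hj
      refine ⟨l, hl, ?_⟩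
      unfold HM
      rw [List.getD_eq_getElem _ _ hl]
      exact ap_of_red h4

end Pool.Agent.V7H75.TQ
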